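import Mathlib
import Pool.Agent.Lib.MP_4362c3_ag.Descent
import Pool.Agent.Lib.MP_4362c3_ag.Ext

/-!
# MP_4362c3_ag, Q1: reciprocals of Fermat polynomials are rationally integrable iff `n ≠ m`

Non-integrability for `n = m` is proved by reduction to characteristic `p ≡ 1 mod m`:
there the Cartier operator applied to `dx_1 ... dx_m / (x_1^m + ... + x_m^m)` multiplies the form
by the coefficient of `(x_1 ... x_m)^(p-1)` in `(x_1^m + ... + x_m^m)^(p-1)`, a multinomial
coefficient prime to `p`, whereas it kills exact forms.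
-/

namespace Pool.Agent.Results.MP_4362c3_ag.FermatRationalIntegrability

open MvPolynomial Pool.Agent.Lib.MP_4362c3_ag

/-- The rational function field `K = k(x_1, ..., x_m)`. -/
abbrev RatField (k : Type*) [Field k] (m : ℕ) : Type _ := FractionRing (MvPolynomial (Fin m) k)

/-- The usual derivation `∂/∂x_i` of `K = k(x_1, ..., x_m)`: the unique `k`-derivation of `K`
that extends `∂/∂x_i` (Mathlib's `MvPolynomial.pderiv i`) from the polynomial ring. -/
noncomputable def ddx (k : Type*) [Field k] (m : ℕ) (i : Fin m) :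
    Derivation k (RatField k m) (RatField k m) :=
  (existsUnique_ext (RatField k m) (pderiv i : Derivation k _ (MvPolynomial (Fin m) k))).choose

lemma ddx_algebraMap (k : Type*) [Field k] (m : ℕ) (i : Fin m) (P : MvPolynomial (Fin m) k) :
    ddx k m i (algebraMap _ (RatField k m) P) = algebraMap _ (RatField k m) (pderiv i P) :=
  (existsUnique_ext (RatField k m)
    (pderiv i : Derivation k _ (MvPolynomial (Fin m) k))).choose_spec.1 P

lemma ddx_eq_ext (k : Type*) [Field k] (m : ℕ) (i : Fin m) :
    ddx k m i = fracExt (RatField k m)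
      (pderiv i : Derivation k _ (MvPolynomial (Fin m) k)) :=
  (existsUnique_ext (RatField k m) (pderiv i : Derivation k _ (MvPolynomial (Fin m) k))).unique
    (ddx_algebraMap k m i) (fracExt_algebraMap _)

/-- `f ∈ K` is rationally integrable with respect to `x_1, ..., x_m`:
`f = ∂_{x_1}(u_1) + ... + ∂_{x_m}(u_m)` for some `u_1, ..., u_m ∈ K`. -/
def RationallyIntegrable {k : Type*} [Field k] {m : ℕ} (f : RatField k m) : Prop :=
  ∃ u : Fin m → RatField k m, f = ∑ i : Fin m, ddx k m i (u i)

/-- `f_{m,n} = 1 / (x_1^n + ... + x_m^n)` as an element of `K = k(x_1, ..., x_m)`. -/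
noncomputable def fermatReciprocal (k : Type*) [Field k] (m n : ℕ) : RatField k m :=
  1 / ∑ i : Fin m, (algebraMap (MvPolynomial (Fin m) k) (RatField k m) (X i)) ^ n

lemma fermatReciprocal_eq (k : Type*) [Field k] (m n : ℕ) :
    fermatReciprocal k m n = 1 / algebraMap _ (RatField k m) (fermat k m n) := by
  simp [fermatReciprocal, fermat]

lemma fermat_ne_zero (k : Type*) [Field k] [CharZero k] (m n : ℕ) (hm : 1 ≤ m) :
    fermat k m n ≠ 0 := by
  intro h
  have h1 := congrArg (MvPolynomial.eval (fun _ => (1 : k))) h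
  simp only [fermat, map_sum, map_pow, eval_X, one_pow, Finset.sum_const, Finset.card_univ,
    Fintype.card_fin, nsmul_eq_mul, mul_one, map_zero, Nat.cast_eq_zero] at h1
  omega

/-- the easy direction: an explicit primitive when `n ≠ m` -/
lemma integrable_of_ne (k : Type*) [Field k] [CharZero k] (m n : ℕ) (hm : 1 ≤ m) (hnm : n ≠ m) :
    RationallyIntegrable (fermatReciprocal k m n) := by
  have hQ0 := fermat_ne_zero k m n hm
  set Q := fermat k m n with hQ
  have hQ0' : algebraMap _ (RatField k m) Q ≠ 0 := by simpa using hQ0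
  have hmn : ((m : k) - (n : k)) ≠ 0 := by
    intro h
    exact hnm (Nat.cast_injective (sub_eq_zero.mp h)).symm
  let ι := algebraMap (MvPolynomial (Fin m) k) (RatField k m)
  refine ⟨fun i => ((m : k) - (n : k))⁻¹ • (ι (X i) / ι Q), ?_⟩
  have hE : (∑ i : Fin m, (X i : MvPolynomial (Fin m) k) * pderiv i Q) =
      (n : MvPolynomial (Fin m) k) * Q := by
    have h1 := (fermat_isHomogeneous k m n).sum_X_mul_pderiv
    rw [← hQ, nsmul_eq_mul] at h1
    exact h1
  have hterm : ∀ i : Fin m, ddx k m i (((m : k) - (n : k))⁻¹ • (ι (X i) / ι Q)) =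
      ((m : k) - (n : k))⁻¹ • ((ι Q - ι (X i * pderiv i Q)) / (ι Q) ^ 2) := by
    intro i
    rw [Derivation.map_smul, ddx_eq_ext, fracExt_div _ _ _ hQ0]
    unfold quotRule
    simp [ι]
  have hE' : ∑ i : Fin m, ι (X i * pderiv i Q) = ι ((n : MvPolynomial (Fin m) k) * Q) := by
    rw [← map_sum, hE]
  rw [Finset.sum_congr rfl (fun i _ => hterm i), ← Finset.smul_sum, ← Finset.sum_div,
    Finset.sum_sub_distrib, hE', fermatReciprocal_eq, ← hQ]
  simp only [Finset.sum_const, Finset.card_univ, Fintype.card_fin, nsmul_eq_mul, map_mul,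
    map_natCast]
  rw [Algebra.smul_def, map_inv₀, map_sub, map_natCast, map_natCast]
  have hmn' : ((m : RatField k m) - (n : RatField k m)) ≠ 0 := by
    intro h
    apply hmn
    apply FaithfulSMul.algebraMap_injective k (RatField k m)
    rw [map_sub, map_natCast, map_natCast, h, map_zero]
  have hι : ι Q ≠ 0 := hQ0'
  change 1 / ι Q = _
  field_simp

/-- the hard direction: `1 / (x_1^m + ... + x_m^m)` is not rationally integrable -/
lemma not_integrable (k : Type*) [Field k] [CharZero k] (m : ℕ) (hm : 1 ≤ m) :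
    ¬ RationallyIntegrable (fermatReciprocal k m m) := by
  rintro ⟨u, hu⟩
  have hQ0 := fermat_ne_zero k m m hm
  set Q := fermat k m m with hQ
  have hQ0' : algebraMap _ (RatField k m) Q ≠ 0 := by simpa using hQ0
  obtain ⟨D, hD⟩ := IsLocalization.exist_integer_multiples_of_finite
    (nonZeroDivisors (MvPolynomial (Fin m) k)) u
  have hD0 : (D : MvPolynomial (Fin m) k) ≠ 0 := nonZeroDivisors.ne_zero D.2
  choose P hP using hD
  have hDK : algebraMap _ (RatField k m) (D : MvPolynomial (Fin m) k) ≠ 0 := by simp [hD0]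
  have hu' : ∀ i, u i = algebraMap _ (RatField k m) (P i) /
      algebraMap _ (RatField k m) (D : MvPolynomial (Fin m) k) := by
    intro i
    rw [hP i, Algebra.smul_def]
    field_simp
  apply hD0
  apply charZero_case (by omega) (D : MvPolynomial (Fin m) k) P
  unfold Bad
  apply IsFractionRing.injective (MvPolynomial (Fin m) k) (RatField k m)
  rw [fermatReciprocal_eq, ← hQ] at hu
  have hterm : ∀ i : Fin m, ddx k m i (u i) =
      algebraMap _ (RatField k m) (pderiv i (P i) * (D : MvPolynomial (Fin m) k) -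
        P i * pderiv i (D : MvPolynomial (Fin m) k)) /
      (algebraMap _ (RatField k m) (D : MvPolynomial (Fin m) k)) ^ 2 := by
    intro i
    rw [hu' i, ddx_eq_ext, fracExt_div _ _ _ hD0]
    unfold quotRule
    simp
  rw [Finset.sum_congr rfl (fun i _ => hterm i), ← Finset.sum_div, ← map_sum] at hu
  rw [map_pow, map_mul, ← hQ]
  rw [div_eq_div_iff hQ0' (pow_ne_zero 2 hDK), one_mul] at hu
  rw [hu]
  ring

/-- **Q1 of MP_4362c3_ag, answered affirmatively** (for every `m ≥ 1`, in particular every
`m ≥ 4`). -/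
theorem result (k : Type*) [Field k] [CharZero k] (m n : ℕ) (hm : 1 ≤ m) :
    RationallyIntegrable (fermatReciprocal k m n) ↔ n ≠ m := by
  constructor
  · rintro h rfl
    exact not_integrable k n hm h
  · exact integrable_of_ne k m n hm

end Pool.Agent.Results.MP_4362c3_ag.FermatRationalIntegrability
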